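import Pool.Agent.H74.Stallings

namespace Pool.Agent.Results.MP_339e71_al.NotEchelon

open Pool.Agent.H74.Stallings

/-- The rank of a subgroup: the least size of a generating set. -/
noncomputable def rk {G : Type*} [Group G] (H : Subgroup G) : ℕ∞ :=
  ⨅ (S : Set G) (_ : Subgroup.closure S = H), S.encard

/-- The subgroup generated by the first `i` elements of an ordered basis. -/
def seg {G : Type*} [Group G] {n : ℕ} (b : FreeGroupBasis (Fin n) G) (i : ℕ) : Subgroup G :=
  Subgroup.closure (b '' {j | j.val < i})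

/-- `H` is in echelon form with respect to some ordered free basis of `Fₙ`. -/
def IsEchelon {n : ℕ} (H : Subgroup (FreeGroup (Fin n))) : Prop :=
  ∃ b : FreeGroupBasis (Fin n) (FreeGroup (Fin n)),
    ∀ i < n, rk (H ⊓ seg b (i + 1)) ≤ rk (H ⊓ seg b i) + 1

abbrev F := FreeGroup (Fin 2)

lemma rk_le {G : Type*} [Group G] (S : Set G) : rk (Subgroup.closure S) ≤ S.encard :=
  iInf₂_le_of_le S rfl le_rfl

lemma one_le_rk {G : Type*} [Group G] {H : Subgroup G} (h : H ≠ ⊥) : 1 ≤ rk H := by
  refine le_iInf₂ fun S hS => ?_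
  rw [Set.one_le_encard_iff_nonempty, Set.nonempty_iff_ne_empty]
  rintro rfl
  exact h (by simpa using hS.symm)

lemma two_le_rk {G : Type*} [Group G] {H : Subgroup G} {u v : G} (hu : u ∈ H) (hv : v ∈ H)
    (h : u * v ≠ v * u) : 2 ≤ rk H := by
  refine le_iInf₂ fun S hS => ?_
  by_contra hlt
  have h1 : S.encard ≤ 1 := Order.le_of_lt_succ (not_le.1 hlt)
  rcases Set.encard_le_one_iff_eq.1 h1 with rfl | ⟨x, rfl⟩
  · rw [← hS, Subgroup.closure_empty, Subgroup.mem_bot] at hu
    exact h (by simp [hu])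
  · rw [← hS, Subgroup.mem_closure_singleton] at hu hv
    obtain ⟨m, rfl⟩ := hu
    obtain ⟨k, rfl⟩ := hv
    exact h (zpow_mul_comm x m k)

lemma seg_one (b : FreeGroupBasis (Fin 2) F) : seg b 1 = Subgroup.closure {b 0} := by
  have : {j : Fin 2 | j.val < 1} = {0} := by ext j; fin_cases j <;> simp
  rw [seg, this, Set.image_singleton]

lemma seg_two (b : FreeGroupBasis (Fin 2) F) : seg b 2 = ⊤ := by
  have : {j : Fin 2 | j.val < 2} = Set.univ := by ext j; fin_cases j <;> simp
  rw [seg, this, Set.image_univ]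
  have h : Set.range b = b.repr.symm '' Set.range FreeGroup.of := by
    rw [← Set.range_comp]; rfl
  rw [h]
  have := MonoidHom.map_closure b.repr.symm.toMonoidHom (Set.range (FreeGroup.of (α := Fin 2)))
  rw [FreeGroup.closure_range_of] at this
  rw [eq_top_iff]
  intro g _
  have h2 : g ∈ Subgroup.map b.repr.symm.toMonoidHom ⊤ := ⟨b.repr g, trivial, by simp⟩
  rw [this] at h2
  exact h2

lemma echelon_pair (b : FreeGroupBasis (Fin 2) F) (w : F) :
    IsEchelon (Subgroup.closure {b 0, w}) := by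
  have h1 : Subgroup.closure {b 0, w} ⊓ seg b 1 = Subgroup.closure {b 0} := by
    rw [seg_one]
    exact inf_eq_right.2 (Subgroup.closure_mono (by simp))
  refine ⟨b, fun i hi => ?_⟩
  interval_cases i
  · rw [zero_add, h1]
    exact (rk_le _).trans (by simp)
  · rw [seg_two, inf_top_eq, h1]
    have h2 : (1 : ℕ∞) ≤ rk (Subgroup.closure {b 0}) := by
      apply one_le_rk
      intro h
      have h3 : b 0 = 1 := by simpa using h
      have h4 := b.repr_apply_coe 0
      rw [h3, map_one] at h4
      exact FreeGroup.of_ne_one _ h4.symm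
    refine (rk_le _).trans ((Set.encard_insert_le _ _).trans ?_)
    rw [Set.encard_singleton]
    gcongr

def x : F := FreeGroup.of 0
def y : F := FreeGroup.of 1
def t : F := y * x * y⁻¹

def tab (T : Fin 6 → Fin 2 → Option (Fin 6) × Option (Fin 6)) (v : Fin 6) (a : Fin 2 × Bool) :
    Option (Fin 6) := if a.2 then (T v a.1).1 else (T v a.1).2

def dH := tab ![![(some 0, some 0), (some 1, none)], ![(some 2, some 5), (none, some 0)],
  ![(none, some 1), (none, some 3)], ![(none, some 4), (some 2, none)],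
  ![(some 3, none), (some 5, none)], ![(some 1, none), (none, some 4)]]

def dG := tab ![![(some 2, some 5), (some 1, none)], ![(some 1, some 1), (none, some 0)],
  ![(none, some 0), (some 3, none)], ![(none, some 4), (none, some 2)],
  ![(some 3, none), (none, some 5)], ![(some 0, none), (some 4, none)]]

def pot : Fin 6 → Fin 6 → Option (ℤ × ℤ) :=
  ![![some (0, 0), none, some (1, 0), none, none, some (-1, 0)],
    ![none, some (0, 1), none, some (1, 1), some (-1, 1), none],
    ![none, some (1, 1), none, some (0, 1), none, none],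
    ![some (1, 0), none, some (0, 0), none, none, none],
    ![some (-1, 0), none, none, none, none, some (0, 0)],
    ![none, some (-1, 1), none, none, some (0, 1), none]]

def wt (a : Fin 2 × Bool) : ℤ × ℤ :=
  if a.1 = 0 then (if a.2 then (1, 0) else (-1, 0)) else (if a.2 then (0, 1) else (0, -1))

lemma fH : Folded dH := by unfold Folded; decide +kernel
lemma fG : Folded dG := by unfold Folded; decide +kernel

lemma pot_ok : ∀ v w a v' w', dH v a = some v' → dG w a = some w' →
    (pot v w).all (fun k => pot v' w' = some (k + wt a)) = true := by decide +kernel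

lemma H_le : Subgroup.closure {x, t * x⁻¹ * t} ≤ loops fH 0 := by
  rw [Subgroup.closure_le]
  rintro _ (rfl | rfl)
  · exact ⟨[(0, true)], rfl, by decide⟩
  · exact ⟨[(1, true), (0, true), (1, false), (0, false), (1, true), (0, true), (1, false)],
      rfl, by decide⟩

lemma G_le : Subgroup.closure {t, x * t⁻¹ * x} ≤ loops fG 0 := by
  rw [Subgroup.closure_le]
  rintro _ (rfl | rfl)
  · exact ⟨[(1, true), (0, true), (1, false)], rfl, by decide⟩
  · exact ⟨[(0, true), (1, true), (0, false), (1, false), (0, true)], rfl, by decide⟩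

lemma ab_triv {A : Type*} [CommGroup A] (ψ : F →* A) {g : F}
    (h1 : g ∈ Subgroup.closure {x, t * x⁻¹ * t}) (h2 : g ∈ Subgroup.closure {t, x * t⁻¹ * x}) :
    ψ g = 1 := by
  obtain ⟨k, h3, h4⟩ := potential (δ := dH) (ε := dG) pot (fun k => ψ x ^ k.1 * ψ y ^ k.2) ψ (by
    intro v w k a v' w' h0 h1 h2
    have h3 := pot_ok v w a v' w' h1 h2
    rw [h0] at h3
    refine ⟨k + wt a, by simpa using h3, ?_⟩
    obtain ⟨a, b⟩ := a
    have e1 : ∀ i : Fin 2, FreeGroup.mk [(i, true)] = FreeGroup.of i := fun _ => rfl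
    have e2 : ∀ i : Fin 2, FreeGroup.mk [(i, false)] = (FreeGroup.of i)⁻¹ := fun _ => rfl
    fin_cases a <;> cases b <;>
      simp [wt, e1, e2, zpow_add, x, y, mul_assoc, mul_comm, mul_left_comm])
    g.toWord (k := (0, 0)) rfl (run_toWord fH (H_le h1)) (run_toWord fG (G_le h2))
  have h5 : k = (0, 0) := by
    have : pot 0 0 = some (0, 0) := rfl
    rw [this] at h3
    exact (Option.some.inj h3).symm
  subst h5
  simpa [FreeGroup.mk_toWord] using h4.symm

/-- Two echelon subgroups of the free group of rank two whose intersection is not echelon. -/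
theorem result : ∃ (n : ℕ) (H G : Subgroup (FreeGroup (Fin n))),
    1 ≤ n ∧ IsEchelon H ∧ IsEchelon G ∧ ¬ IsEchelon (H ⊓ G) := by
  refine ⟨2, Subgroup.closure {x, t * x⁻¹ * t}, Subgroup.closure {t, x * t⁻¹ * x}, by norm_num,
    echelon_pair (FreeGroupBasis.ofFreeGroup _) _,
    echelon_pair ((FreeGroupBasis.ofFreeGroup _).map (MulAut.conj y)) _, ?_⟩
  rintro ⟨b, hb⟩
  have h1 := hb 1 (by norm_num)
  have h2 : Subgroup.closure {x, t * x⁻¹ * t} ⊓ Subgroup.closure {t, x * t⁻¹ * x} ⊓ seg b 1
      = Subgroup.closure ∅ := by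
    rw [Subgroup.closure_empty, eq_bot_iff, seg_one]
    rintro g ⟨⟨hg1, hg2⟩, hg3⟩
    obtain ⟨m, rfl⟩ := Subgroup.mem_closure_singleton.1 hg3
    have h3 := ab_triv (b.lift fun _ => Multiplicative.ofAdd (1 : ℤ)) hg1 hg2
    have h4 : (b.lift fun _ => Multiplicative.ofAdd (1 : ℤ)) (b 0) = Multiplicative.ofAdd 1 :=
      congrFun (b.lift.symm_apply_apply fun _ => Multiplicative.ofAdd (1 : ℤ)) 0
    rw [map_zpow, h4] at h3
    have h5 : m = 0 := by
      have := congrArg Multiplicative.toAdd h3
      simpa using this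
    simp [h5]
  rw [h2, seg_two, inf_top_eq] at h1
  have h3 := rk_le (∅ : Set F)
  have hx : x ∈ Subgroup.closure {x, t * x⁻¹ * t} := Subgroup.subset_closure (by simp)
  have hw : t * x⁻¹ * t ∈ Subgroup.closure {x, t * x⁻¹ * t} := Subgroup.subset_closure (by simp)
  have ht : t ∈ Subgroup.closure {t, x * t⁻¹ * x} := Subgroup.subset_closure (by simp)
  have hv : x * t⁻¹ * x ∈ Subgroup.closure {t, x * t⁻¹ * x} := Subgroup.subset_closure (by simp)
  have h4 := two_le_rk
    (H := Subgroup.closure {x, t * x⁻¹ * t} ⊓ Subgroup.closure {t, x * t⁻¹ * x})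
    (u := t * x⁻¹ * t * x⁻¹) (v := x⁻¹ * (t * x⁻¹ * t))
    ⟨Subgroup.mul_mem _ hw (Subgroup.inv_mem _ hx), by
      have := Subgroup.mul_mem _ ht (Subgroup.inv_mem _ hv)
      rwa [show t * (x * t⁻¹ * x)⁻¹ = t * x⁻¹ * t * x⁻¹ by group] at this⟩
    ⟨Subgroup.mul_mem _ (Subgroup.inv_mem _ hx) hw, by
      have := Subgroup.mul_mem _ (Subgroup.inv_mem _ hv) ht
      rwa [show (x * t⁻¹ * x)⁻¹ * t = x⁻¹ * (t * x⁻¹ * t) by group] at this⟩ (by decide)
  rw [Set.encard_empty, nonpos_iff_eq_zero] at h3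
  rw [h3, zero_add] at h1
  exact absurd (h4.trans h1) (by norm_num)

end Pool.Agent.Results.MP_339e71_al.NotEchelon
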